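import Pool.Agent.Helper78.BigMap.Defs

set_option autoImplicit false

/-!
Goals (packets) for MP_2b9d24_gt.
-/

open Topology Filter Set Metric

namespace Pool.Agent.Helper78.BigMap

/-! ### Part I: surface topology -/

/-- The standing data: a disc of radius 2 minus the compact totally disconnected `E ⊂ (-1,1)`
sits in `S` as an open set, its closed unit disc part is closed in `S`. -/
structure Patch {S : Type*} [TopologicalSpace S] (E : Set ℝ) (j : OpenPartialHomeomorph ℂ S) :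
    Prop where
  compact : IsCompact E
  totDisc : IsTotallyDisconnected E
  sub : E ⊆ Ioo (-1) 1
  source : j.source = ball (0 : ℂ) 2 \ inC E
  closed : IsClosed (j '' (closedBall (0 : ℂ) 1 \ inC E))

/-- The homeomorphism `f` tends to `x` at the planar end `x`, for all `x ∈ E`. -/
def NearE {S : Type*} [TopologicalSpace S] (E : Set ℝ) (j : OpenPartialHomeomorph ℂ S)
    (f : S → S) : Prop :=
  ∀ x ∈ E, ∀ ε > 0, ∃ δ > 0, ∀ z ∈ ball (x : ℂ) δ \ inC E, f (j z) ∈ j '' (ball (x : ℂ) ε \ inC E)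

/-- GOAL A1. -/
def GoalA1.{v} : Prop :=
  ∀ (S : Type v) [TopologicalSpace S] [T2Space S] (E : Set ℝ) (j : OpenPartialHomeomorph ℂ S),
    Patch E j → ∀ f : S ≃ₜ S, FixesEnds f → NearE E j f

/-- GOAL A2: uniformly in the time of an isotopy starting at the identity. -/
def GoalA2.{v} : Prop :=
  ∀ (S : Type v) [TopologicalSpace S] [T2Space S] (E : Set ℝ) (j : OpenPartialHomeomorph ℂ S),
    Patch E j → ∀ H : (unitInterval × S) ≃ₜ (unitInterval × S),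
      (∀ p, (H p).1 = p.1) → (∀ x, (H (0, x)).2 = x) →
      ∀ x ∈ E, ∀ ε > 0, ∃ δ > 0, ∀ t : unitInterval, ∀ z ∈ ball (x : ℂ) δ \ inC E,
        (H (t, j z)).2 ∈ j '' (ball (x : ℂ) ε \ inC E)

/-- GOAL A3: being trivial on ends is a subgroup condition. -/
def GoalA3.{v} : Prop :=
  ∀ (S : Type v) [TopologicalSpace S] (f g : S ≃ₜ S), FixesEnds f → FixesEnds g →
    FixesEnds (f * g) ∧ FixesEnds f⁻¹

/-- The map `j⁻¹ ∘ f ∘ j`, extended by the identity on `E`. -/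
noncomputable def germ {S : Type*} [TopologicalSpace S] (E : Set ℝ)
    (j : OpenPartialHomeomorph ℂ S) (f : S → S) (z : ℂ) : ℂ :=
  open Classical in if z ∈ inC E then z else j.symm (f (j z))

/-- `F` is near `e` a continuous injective map fixing `E`. -/
def Good (E : Set ℝ) (e δ : ℝ) (F : ℂ → ℂ) : Prop :=
  0 < δ ∧ ContinuousOn F (ball (e : ℂ) δ) ∧ InjOn F (ball (e : ℂ) δ) ∧
    ∀ x ∈ E, (x : ℂ) ∈ ball (e : ℂ) δ → F x = x

/-- GOAL B1. -/
def GoalB1.{v} : Prop :=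
  ∀ (S : Type v) [TopologicalSpace S] [T2Space S] (E : Set ℝ) (j : OpenPartialHomeomorph ℂ S),
    Patch E j → ∀ f : S ≃ₜ S, NearE E j f → ∀ e ∈ E, ∃ δ, Good E e δ (germ E j f)

/-- GOAL B2. -/
def GoalB2.{v} : Prop :=
  ∀ (S : Type v) [TopologicalSpace S] [T2Space S] (E : Set ℝ) (j : OpenPartialHomeomorph ℂ S),
    Patch E j → ∀ f g : S ≃ₜ S, NearE E j f → NearE E j g → ∀ e ∈ E,
      ∃ δ > 0, ∀ z ∈ ball (e : ℂ) δ,
        germ E j (f * g : S ≃ₜ S) z = germ E j f (germ E j g z)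

/-- GOAL B3: isotopies give homotopies through good maps. -/
def GoalB3.{v} : Prop :=
  ∀ (S : Type v) [TopologicalSpace S] [T2Space S] (E : Set ℝ) (j : OpenPartialHomeomorph ℂ S),
    Patch E j → ∀ H : (unitInterval × S) ≃ₜ (unitInterval × S),
      (∀ p, (H p).1 = p.1) → (∀ x, (H (0, x)).2 = x) →
      (∀ x ∈ E, ∀ ε > 0, ∃ δ > 0, ∀ t : unitInterval, ∀ z ∈ ball (x : ℂ) δ \ inC E,
        (H (t, j z)).2 ∈ j '' (ball (x : ℂ) ε \ inC E)) →
      ∀ e ∈ E, ∃ δ > 0, ∃ Φ : unitInterval → ℂ → ℂ,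
        ContinuousOn (fun p : unitInterval × ℂ => Φ p.1 p.2) (univ ×ˢ ball (e : ℂ) δ) ∧
        (∀ t, Good E e δ (Φ t)) ∧ (∀ z ∈ ball (e : ℂ) δ, Φ 0 z = z) ∧
        ∀ f : S ≃ₜ S, (∀ x, (H (1, x)).2 = f x) → ∀ z ∈ ball (e : ℂ) δ, Φ 1 z = germ E j f z

/-! ### Part II: orientation and extension of planar homeomorphisms -/

/-- GOAL C1: composition. -/
def GoalC1 : Prop :=
  ∀ (F G : ℂ → ℂ) (z : ℂ), PosAt F z → ContinuousAt F z → PosAt G (F z) →
    (∀ᶠ w in 𝓝 (F z), ContinuousAt G w) → (∀ᶠ w in 𝓝 (F z), G w = G (F z) → w = F z) →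
    (∀ᶠ w in 𝓝 z, ContinuousAt F w) →
    PosAt (fun w => G (F w)) z

/-- GOAL C2: an isotopy of the plane from the identity consists of orientation preserving maps. -/
def GoalC2 : Prop :=
  ∀ (Φ : ℝ → ℂ → ℂ), Continuous (fun p : ℝ × ℂ => Φ p.1 p.2) → (∀ s, Function.Injective (Φ s)) →
    (∀ z, Φ 0 z = z) → ∀ s z, PosAt (Φ s) z

/-- The full twist about `p` supported in the annulus `r ≤ |z - p| ≤ r'`. -/
noncomputable def tw (p : ℂ) (r r' : ℝ) (z : ℂ) : ℂ :=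
  p + Complex.exp (2 * Real.pi * Complex.I * (max 0 (min 1 ((r' - ‖z - p‖) / (r' - r))) : ℝ)) *
    (z - p)

/-- GOAL C3: the full twist is a homeomorphism of the plane, the identity off the annulus,
and orientation preserving. -/
def GoalC3 : Prop :=
  ∀ (p : ℂ) (r r' : ℝ), 0 < r → r < r' → ∃ T : ℂ ≃ₜ ℂ, (∀ z, T z = tw p r r' z) ∧
    (∀ z, (‖z - p‖ ≤ r ∨ r' ≤ ‖z - p‖) → T z = z) ∧
    (∀ z, ‖T z - p‖ = ‖z - p‖) ∧ ∀ z, PosAt T z

/-- GOAL C4: extension to the surface.  `T` is a homeomorphism of the plane which is the identity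
on `E`, outside the closed disc of radius `ρ < 1`, and outside the disjoint open sets `U i` with
compact closure in the complement of `E`. -/
def GoalC4.{v} : Prop :=
  ∀ (S : Type v) [TopologicalSpace S] [T2Space S] (O : Set (OpenPartialHomeomorph S ℂ))
    (E : Set ℝ) (j : OpenPartialHomeomorph ℂ S), IsOrientedAtlas O → Patch E j → j.symm ∈ O →
    ∀ (T : ℂ ≃ₜ ℂ) (ρ : ℝ) (U : ℕ → Set ℂ), ρ < 1 → (∀ z ∈ inC E, T z = z) →
      (∀ z, ρ ≤ ‖z‖ → T z = z) → (∀ i, IsOpen (U i)) → (Pairwise fun i k => Disjoint (U i) (U k)) →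
      (∀ i, closure (U i) ⊆ ball 0 1 \ inC E) → (∀ z, T z ≠ z → ∃ i, z ∈ U i) →
      (∀ z ∉ inC E, PosAt T z) →
      ∃ f : S ≃ₜ S, FixesEnds f ∧ PreservesOrientation O f ∧ ∀ z ∈ j.source, f (j z) = j (T z)

/-! ### Part III: the plane minus two points -/

/-- The plane without `a` and `b`. -/
abbrev X (a b : ℝ) : Type := {z : ℂ // z ≠ a ∧ z ≠ b}

/-- The base point `c` between `a` and `b`. -/
def bp {a b c : ℝ} (h : a < c ∧ c < b) : X a b :=
  ⟨(c : ℂ), by simpa using h.1.ne', by simpa using h.2.ne⟩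

/-- The fundamental group of the plane minus `a, b` at `c`. -/
abbrev Pi1 {a b c : ℝ} (h : a < c ∧ c < b) : Type := FundamentalGroup (X a b) (bp h)

/-- The loop through `c` around `a`. -/
noncomputable def pathA {a b c : ℝ} (h : a < c ∧ c < b) : Path (bp h) (bp h) where
  toFun t := ⟨a + (c - a : ℝ) * Complex.exp (2 * Real.pi * Complex.I * (t : ℝ)), by
    have h1 : ‖((c - a : ℝ) : ℂ) * Complex.exp (2 * Real.pi * Complex.I * (t : ℝ))‖ = c - a := by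
      rw [norm_mul, Complex.norm_real, Complex.norm_exp]
      simp [abs_of_pos (sub_pos.2 h.1)]
    constructor
    · intro h2
      rw [add_eq_left] at h2
      rw [h2, norm_zero] at h1
      linarith [h.1]
    · intro h2
      have h3 : ((c - a : ℝ) : ℂ) * Complex.exp (2 * Real.pi * Complex.I * (t : ℝ))
          = ((b - a : ℝ) : ℂ) := by
        rw [← sub_eq_zero] at h2 ⊢
        push_cast at h2 ⊢
        linear_combination h2
      rw [h3, Complex.norm_real, Real.norm_of_nonneg (by linarith [h.1, h.2])] at h1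
      linarith [h.2]⟩
  continuous_toFun := by fun_prop
  source' := by simp [bp]
  target' := by
    apply Subtype.ext
    simp [bp]

/-- The loop through `c` around `b`. -/
noncomputable def pathB {a b c : ℝ} (h : a < c ∧ c < b) : Path (bp h) (bp h) where
  toFun t := ⟨b + (c - b : ℝ) * Complex.exp (2 * Real.pi * Complex.I * (t : ℝ)), by
    have h1 : ‖((c - b : ℝ) : ℂ) * Complex.exp (2 * Real.pi * Complex.I * (t : ℝ))‖ = b - c := by
      rw [norm_mul, Complex.norm_real, Complex.norm_exp]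
      simp [abs_of_neg (sub_neg.2 h.2)]
    constructor
    · intro h2
      have h3 : ((c - b : ℝ) : ℂ) * Complex.exp (2 * Real.pi * Complex.I * (t : ℝ))
          = ((a - b : ℝ) : ℂ) := by
        rw [← sub_eq_zero] at h2 ⊢
        push_cast at h2 ⊢
        linear_combination h2
      rw [h3, Complex.norm_real, Real.norm_of_nonpos (by linarith [h.1, h.2])] at h1
      linarith [h.1]
    · intro h2
      rw [add_eq_left] at h2
      rw [h2, norm_zero] at h1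
      linarith [h.2]⟩
  continuous_toFun := by fun_prop
  source' := by simp [bp]
  target' := by
    apply Subtype.ext
    simp [bp]

/-- The class of `pathA`. -/
noncomputable def dA {a b c : ℝ} (h : a < c ∧ c < b) : Pi1 h :=
  FundamentalGroup.fromPath (Path.Homotopic.Quotient.mk (pathA h))

/-- The class of `pathB`. -/
noncomputable def dB {a b c : ℝ} (h : a < c ∧ c < b) : Pi1 h :=
  FundamentalGroup.fromPath (Path.Homotopic.Quotient.mk (pathB h))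

/-- The radial retraction of the plane onto the closed disc. -/
noncomputable def rad (e : ℂ) (R : ℝ) (z : ℂ) : ℂ :=
  e + ((min 1 (R / ‖z - e‖) : ℝ) : ℂ) * (z - e)

/-- `F` restricted to the closed disc `closedBall e R` is a continuous map into the plane which
sends no other point to `a` or `b`, and fixes `c`. -/
structure Nice (a b c : ℝ) (e : ℂ) (R : ℝ) (F : ℂ → ℂ) : Prop where
  cont : ContinuousOn F (closedBall e R)
  avoid : ∀ z ∈ closedBall e R, z ≠ a → z ≠ b → F z ≠ a ∧ F z ≠ b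
  base : F c = c

/-- `a, b, c` lie in the open disc. -/
def Pos (a b c : ℝ) (e : ℂ) (R : ℝ) : Prop :=
  (a : ℂ) ∈ ball e R ∧ (b : ℂ) ∈ ball e R ∧ (c : ℂ) ∈ ball e R

/-- `φ` is the self map `z ↦ F (rad e R z)` of the plane minus `a, b`. -/
def IsSelf {a b : ℝ} (e : ℂ) (R : ℝ) (F : ℂ → ℂ) (φ : C(X a b, X a b)) : Prop :=
  ∀ z : X a b, (φ z : ℂ) = F (rad e R z)

/-- GOAL D1: nice maps give self maps. -/
def GoalD1 : Prop :=
  ∀ (a b c : ℝ) (h : a < c ∧ c < b) (e : ℂ) (R : ℝ) (F : ℂ → ℂ), Pos a b c e R →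
    Nice a b c e R F → ∃ φ : C(X a b, X a b), IsSelf e R F φ ∧ φ (bp h) = bp h

/-- GOAL D2: multiplicativity. -/
def GoalD2 : Prop :=
  ∀ (a b c : ℝ) (h : a < c ∧ c < b) (e : ℂ) (R δ : ℝ) (F G : ℂ → ℂ), Pos a b c e R → R < δ →
    ContinuousOn F (ball e δ) → InjOn F (ball e δ) → F a = a → F b = b → F c = c →
    ContinuousOn G (ball e δ) → InjOn G (ball e δ) → G a = a → G b = b → G c = c →
    (∀ z ∈ closedBall e R, G z ∈ ball e δ) →
    ∀ (φ ψ χ : C(X a b, X a b)) (hφ : φ (bp h) = bp h) (hψ : ψ (bp h) = bp h)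
      (hχ : χ (bp h) = bp h), IsSelf e R F φ → IsSelf e R G ψ →
      IsSelf e R (fun z => F (G z)) χ →
      ∀ γ : Pi1 h, FundamentalGroup.mapOfEq χ hχ γ =
        FundamentalGroup.mapOfEq φ hφ (FundamentalGroup.mapOfEq ψ hψ γ)

/-- GOAL D3: isotopy invariance. -/
def GoalD3 : Prop :=
  ∀ (a b c : ℝ) (h : a < c ∧ c < b) (e : ℂ) (R δ : ℝ) (Φ : unitInterval → ℂ → ℂ),
    Pos a b c e R → R < δ →
    ContinuousOn (fun p : unitInterval × ℂ => Φ p.1 p.2) (univ ×ˢ ball e δ) →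
    (∀ t, InjOn (Φ t) (ball e δ)) → (∀ t, Φ t a = a ∧ Φ t b = b ∧ Φ t c = c) →
    (∀ z ∈ ball e δ, Φ 0 z = z) →
    ∀ (φ : C(X a b, X a b)) (hφ : φ (bp h) = bp h), IsSelf e R (Φ 1) φ →
      ∀ γ : Pi1 h, FundamentalGroup.mapOfEq φ hφ γ = γ

/-- GOAL D4: a map which is a full twist about `a` outside a smaller disc acts by conjugation
by the loop around `a` (or its inverse). -/
def GoalD4 : Prop :=
  ∀ (a b c : ℝ) (h : a < c ∧ c < b) (e : ℂ) (R R' r r' : ℝ) (T : ℂ → ℂ), Pos a b c e R →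
    0 < R' → R' < R → Continuous T → c - a < r → r < r' → r' < b - a →
    (∀ z : ℂ, r ≤ ‖z - a‖ → ‖z - a‖ ≤ r' → R' < ‖z - e‖ ∧ ‖z - e‖ < R) →
    (a : ℂ) ∉ closedBall e R' → (b : ℂ) ∉ closedBall e R' → (c : ℂ) ∉ closedBall e R' →
    (∀ z ∈ closedBall e R', T z ∈ closedBall e R') →
    (∀ z ∈ closedBall e R, R' ≤ ‖z - e‖ → T z = tw a r r' z) →
    ∀ (φ : C(X a b, X a b)) (hφ : φ (bp h) = bp h), IsSelf e R T φ →
      ∃ d : Pi1 h, (d = dA h ∨ d = (dA h)⁻¹) ∧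
        ∀ γ : Pi1 h, FundamentalGroup.mapOfEq φ hφ γ = d * γ * d⁻¹

/-- GOAL D5: the same for a twist about `b`. -/
def GoalD5 : Prop :=
  ∀ (a b c : ℝ) (h : a < c ∧ c < b) (e : ℂ) (R R' r r' : ℝ) (T : ℂ → ℂ), Pos a b c e R →
    0 < R' → R' < R → Continuous T → b - c < r → r < r' → r' < b - a →
    (∀ z : ℂ, r ≤ ‖z - b‖ → ‖z - b‖ ≤ r' → R' < ‖z - e‖ ∧ ‖z - e‖ < R) →
    (a : ℂ) ∉ closedBall e R' → (b : ℂ) ∉ closedBall e R' → (c : ℂ) ∉ closedBall e R' →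
    (∀ z ∈ closedBall e R', T z ∈ closedBall e R') →
    (∀ z ∈ closedBall e R, R' ≤ ‖z - e‖ → T z = tw b r r' z) →
    ∀ (φ : C(X a b, X a b)) (hφ : φ (bp h) = bp h), IsSelf e R T φ →
      ∃ d : Pi1 h, (d = dB h ∨ d = (dB h)⁻¹) ∧
        ∀ γ : Pi1 h, FundamentalGroup.mapOfEq φ hφ γ = d * γ * d⁻¹

/-- GOAL D6: two generators. -/
def GoalD6 : Prop :=
  ∀ (a b c : ℝ) (h : a < c ∧ c < b), ∃ x y : Pi1 h, Subgroup.closure {x, y} = ⊤

/-- GOAL D7: a homomorphism to a finite group of bounded size under which the inner automorphisms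
by the two loops do not commute. -/
def GoalD7 : Prop :=
  ∃ (A : Type) (_ : Group A) (_ : Finite A), ∀ (a b c : ℝ) (h : a < c ∧ c < b),
    ∃ ρ : Pi1 h →* A, ∀ d d' : Pi1 h, (d = dA h ∨ d = (dA h)⁻¹) → (d' = dB h ∨ d' = (dB h)⁻¹) →
      ∃ γ : Pi1 h, ρ (d * (d' * γ * d'⁻¹) * d⁻¹) ≠ ρ (d' * (d * γ * d⁻¹) * d'⁻¹)

/-! ### Part IV: choice of clusters and infinite products of twists -/

/-- GOAL E1: clusters. -/
def GoalE1 : Prop :=
  ∀ (E : Set ℝ), IsCompact E → IsTotallyDisconnected E → E.Infinite → E ⊆ Ioo (-1) 1 →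
    ∃ e ∈ E, ∃ (R a b c r r' s s' : ℕ → ℝ), (∀ i, 0 < R i) ∧ StrictAnti R ∧
      Tendsto R atTop (𝓝 0) ∧ closedBall (e : ℂ) (R 0) ⊆ ball (0 : ℂ) 1 ∧
      ∀ i, a i ∈ E ∧ b i ∈ E ∧ c i ∈ E ∧ (a i < c i ∧ c i < b i) ∧
        (R (i + 1) < |a i - e| ∧ |a i - e| < R i) ∧ (R (i + 1) < |b i - e| ∧ |b i - e| < R i) ∧
        (R (i + 1) < |c i - e| ∧ |c i - e| < R i) ∧
        (c i - a i < r i ∧ r i < r' i ∧ r' i < b i - a i) ∧
        (b i - c i < s i ∧ s i < s' i ∧ s' i < b i - a i) ∧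
        (∀ z : ℂ, r i ≤ ‖z - a i‖ → ‖z - a i‖ ≤ r' i →
          z ∉ inC E ∧ R (i + 1) < ‖z - e‖ ∧ ‖z - e‖ < R i) ∧
        (∀ z : ℂ, s i ≤ ‖z - b i‖ → ‖z - b i‖ ≤ s' i →
          z ∉ inC E ∧ R (i + 1) < ‖z - e‖ ∧ ‖z - e‖ < R i)

/-- GOAL E2: infinite product of twists in disjoint shells. -/
def GoalE2 : Prop :=
  ∀ (e : ℂ) (R r r' : ℕ → ℝ) (p : ℕ → ℂ), (∀ i, 0 < R i) → StrictAnti R →
    Tendsto R atTop (𝓝 0) → (∀ i, 0 < r i ∧ r i < r' i) →
    (∀ i (z : ℂ), r i ≤ ‖z - p i‖ → ‖z - p i‖ ≤ r' i →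
      R (i + 1) < ‖z - e‖ ∧ ‖z - e‖ < R i) →
    ∃ T : ℂ ≃ₜ ℂ, (∀ i z, R (i + 1) ≤ ‖z - e‖ → ‖z - e‖ ≤ R i → T z = tw (p i) (r i) (r' i) z) ∧
      (∀ z, R 0 ≤ ‖z - e‖ → T z = z) ∧ T e = e ∧
      (∀ i, ∀ z ∈ closedBall e (R i), T z ∈ closedBall e (R i)) ∧
      (∀ z, T z ≠ z → ∃ i, r i < ‖z - p i‖ ∧ ‖z - p i‖ < r' i) ∧ ∀ z, z ≠ e → PosAt T z

/-! ### Part V: ultralimits -/

/-- GOAL F1: asymptotic homomorphisms to a finite monoid have honest limits. -/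
def GoalF1.{v} : Prop :=
  ∀ (G : Type v) [Group G] (M : Type) [Monoid M] [Finite M] (θ : ℕ → G → M),
    (∀ g h : G, ∀ᶠ i in atTop, θ i (g * h) = θ i g * θ i h) → (∀ᶠ i in atTop, θ i 1 = 1) →
    ∃ Θ : G →* Mˣ, (∀ g, (∀ᶠ i in atTop, θ i g = 1) → Θ g = 1) ∧
      ∀ g h : G, (∀ᶠ i in atTop, θ i g * θ i h ≠ θ i h * θ i g) → Θ g * Θ h ≠ Θ h * Θ g

end Pool.Agent.Helper78.BigMap
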