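import Pool.Agent.Helper78.BigMap.Goals

set_option autoImplicit false

open Topology Filter Set Metric

namespace Pool.Agent.Helper78.BigMap

universe u

section Alg

variable {P A : Type} [Group P] [Group A]

open Classical in
/-- The action of an endomorphism `ψ` of the two generator group `P` on pairs of elements of `A`
which come from homomorphisms. -/
noncomputable def pairAct (x y : P) (ψ : P →* P) : A × A → A × A := fun pq =>
  if h : ∃ ρ : P →* A, ρ x = pq.1 ∧ ρ y = pq.2 then (h.choose (ψ x), h.choose (ψ y)) else pq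

lemma hom_eq_of_gen {x y : P} (hxy : Subgroup.closure {x, y} = ⊤) {ρ σ : P →* A}
    (h1 : ρ x = σ x) (h2 : ρ y = σ y) : ρ = σ := by
  apply MonoidHom.eq_of_eqOn_dense hxy
  intro z hz
  rcases hz with rfl | hz
  · exact h1
  · rw [Set.mem_singleton_iff.1 hz]; exact h2

lemma pairAct_apply {x y : P} (hxy : Subgroup.closure {x, y} = ⊤) (ψ : P →* P) (ρ : P →* A) :
    pairAct x y ψ (ρ x, ρ y) = (ρ (ψ x), ρ (ψ y)) := by
  have h : ∃ σ : P →* A, σ x = (ρ x, ρ y).1 ∧ σ y = (ρ x, ρ y).2 := ⟨ρ, rfl, rfl⟩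
  have h2 : h.choose = ρ := hom_eq_of_gen hxy h.choose_spec.1 h.choose_spec.2
  unfold pairAct
  rw [dif_pos h, h2]

lemma pairAct_comp {x y : P} (hxy : Subgroup.closure {x, y} = ⊤) (ψ ψ' : P →* P) :
    (pairAct x y (ψ.comp ψ') : A × A → A × A) = pairAct x y ψ' ∘ pairAct x y ψ := by
  funext pq
  by_cases h : ∃ ρ : P →* A, ρ x = pq.1 ∧ ρ y = pq.2
  · obtain ⟨ρ, h1, h2⟩ := h
    have hpq : pq = (ρ x, ρ y) := Prod.ext h1.symm h2.symm
    subst hpq
    rw [Function.comp_apply, pairAct_apply hxy, pairAct_apply hxy]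
    have := pairAct_apply hxy ψ' (ρ.comp ψ)
    simp only [MonoidHom.comp_apply] at this ⊢
    rw [this]
  · have h3 : ∀ χ : P →* P, (pairAct x y χ : A × A → A × A) pq = pq := by
      intro χ
      unfold pairAct
      rw [dif_neg h]
    rw [Function.comp_apply, h3, h3, h3]

lemma pairAct_id {x y : P} (hxy : Subgroup.closure {x, y} = ⊤) :
    (pairAct x y (MonoidHom.id P) : A × A → A × A) = id := by
  funext pq
  by_cases h : ∃ ρ : P →* A, ρ x = pq.1 ∧ ρ y = pq.2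
  · obtain ⟨ρ, h1, h2⟩ := h
    have hpq : pq = (ρ x, ρ y) := Prod.ext h1.symm h2.symm
    subst hpq
    rw [pairAct_apply hxy]
    rfl
  · unfold pairAct
    rw [dif_neg h]
    rfl

/-- The finite monoid in which we take limits. -/
abbrev Mon (A : Type) : Type := (Function.End (A × A))ᵐᵒᵖ

lemma finite_mon (A : Type) [Finite A] : Finite (Mon A) := by
  have : Finite (A × A → A × A) := inferInstance
  have : Finite (Function.End (A × A)) := this
  exact Finite.of_equiv _ MulOpposite.opEquiv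

/-- The element of the monoid given by `ψ`. -/
noncomputable def pa (A : Type) [Group A] (x y : P) (ψ : P →* P) : Mon A :=
  MulOpposite.op (pairAct x y ψ)

lemma pa_comp {x y : P} (hxy : Subgroup.closure {x, y} = ⊤) (ψ ψ' : P →* P) :
    pa A x y (ψ.comp ψ') = pa A x y ψ * pa A x y ψ' := by
  unfold pa
  rw [pairAct_comp hxy]
  rfl

lemma pa_id {x y : P} (hxy : Subgroup.closure {x, y} = ⊤) :
    pa A x y (MonoidHom.id P) = 1 := by
  unfold pa
  rw [pairAct_id hxy]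
  rfl

lemma pa_ne {x y : P} (hxy : Subgroup.closure {x, y} = ⊤) (ψ ψ' : P →* P) (ρ : P →* A)
    (g : P) (hg : ρ (ψ (ψ' g)) ≠ ρ (ψ' (ψ g))) :
    pa A x y ψ * pa A x y ψ' ≠ pa A x y ψ' * pa A x y ψ := by
  rw [← pa_comp hxy, ← pa_comp hxy]
  intro h
  have h1 : (pairAct x y (ψ.comp ψ') : A × A → A × A) = pairAct x y (ψ'.comp ψ) :=
    MulOpposite.op_injective h
  have h2 := congrFun h1 (ρ x, ρ y)
  rw [pairAct_apply hxy, pairAct_apply hxy, Prod.mk.injEq] at h2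
  have h3 : ρ.comp (ψ.comp ψ') = ρ.comp (ψ'.comp ψ) := hom_eq_of_gen hxy h2.1 h2.2
  exact hg (DFunLike.congr_fun h3 g)

end Alg

section Act

variable {a b c : ℝ}

lemma isSelf_unique {e : ℂ} {R : ℝ} {F : ℂ → ℂ} {φ ψ : C(X a b, X a b)}
    (h1 : IsSelf e R F φ) (h2 : IsSelf e R F ψ) : φ = ψ := by
  ext z
  rw [h1 z, h2 z]

lemma rad_mem {e : ℂ} {R : ℝ} (hR : 0 ≤ R) (z : ℂ) : rad e R z ∈ closedBall e R := by
  unfold rad
  rw [mem_closedBall, dist_eq_norm, add_sub_cancel_left, norm_mul, Complex.norm_real]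
  by_cases hz : ‖z - e‖ = 0
  · rw [hz]; simpa using hR
  · have hz' : 0 < ‖z - e‖ := lt_of_le_of_ne (norm_nonneg _) (Ne.symm hz)
    have h0 : 0 ≤ min 1 (R / ‖z - e‖) := le_min zero_le_one (div_nonneg hR hz'.le)
    rw [Real.norm_of_nonneg h0]
    calc min 1 (R / ‖z - e‖) * ‖z - e‖ ≤ R / ‖z - e‖ * ‖z - e‖ := by
          apply mul_le_mul_of_nonneg_right (min_le_right _ _) hz'.le
      _ = R := by field_simp

open Classical in
/-- The endomorphism of the fundamental group induced by a plane map (trivial if junk). -/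
noncomputable def act (h : a < c ∧ c < b) (e : ℂ) (R : ℝ) (F : ℂ → ℂ) : Pi1 h →* Pi1 h :=
  if hN : ∃ φ : C(X a b, X a b), IsSelf e R F φ ∧ φ (bp h) = bp h then
    FundamentalGroup.mapOfEq hN.choose hN.choose_spec.2 else MonoidHom.id _

lemma act_eq (h : a < c ∧ c < b) {e : ℂ} {R : ℝ} {F : ℂ → ℂ} {φ : C(X a b, X a b)}
    (h1 : IsSelf e R F φ) (hφ : φ (bp h) = bp h) :
    act h e R F = FundamentalGroup.mapOfEq φ hφ := by
  have hN : ∃ φ : C(X a b, X a b), IsSelf e R F φ ∧ φ (bp h) = bp h := ⟨φ, h1, hφ⟩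
  have h2 : hN.choose = φ := isSelf_unique hN.choose_spec.1 h1
  unfold act
  rw [dif_pos hN]
  congr 1

lemma isSelf_congr {e : ℂ} {R : ℝ} (hR : 0 ≤ R) {F G : ℂ → ℂ} (hFG : ∀ z ∈ closedBall e R, F z = G z)
    (φ : C(X a b, X a b)) : IsSelf e R F φ ↔ IsSelf e R G φ := by
  constructor
  · intro h z
    rw [h z, hFG _ (rad_mem hR _)]
  · intro h z
    rw [h z, hFG _ (rad_mem hR _)]

lemma act_congr (h : a < c ∧ c < b) {e : ℂ} {R : ℝ} (hR : 0 ≤ R) {F G : ℂ → ℂ}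
    (hFG : ∀ z ∈ closedBall e R, F z = G z) : act h e R F = act h e R G := by
  by_cases hN : ∃ φ : C(X a b, X a b), IsSelf e R F φ ∧ φ (bp h) = bp h
  · obtain ⟨φ, h1, h2⟩ := hN
    rw [act_eq h h1 h2, act_eq h ((isSelf_congr hR hFG φ).1 h1) h2]
  · have hN' : ¬ ∃ φ : C(X a b, X a b), IsSelf e R G φ ∧ φ (bp h) = bp h := by
      rintro ⟨φ, h1, h2⟩
      exact hN ⟨φ, (isSelf_congr hR hFG φ).2 h1, h2⟩
    unfold act
    rw [dif_neg hN, dif_neg hN']

end Act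

lemma nice_of_good {E : Set ℝ} {a b c e δ R : ℝ} {F : ℂ → ℂ} (hF : Good E e δ F) (ha : a ∈ E)
    (hb : b ∈ E) (hc : c ∈ E) (hR : R < δ) (hp : Pos a b c e R) : Nice a b c e R F := by
  obtain ⟨_, hcont, hinj, hfix⟩ := hF
  have hsub : closedBall (e : ℂ) R ⊆ ball (e : ℂ) δ := closedBall_subset_ball hR
  have hsub' : ball (e : ℂ) R ⊆ ball (e : ℂ) δ := ball_subset_ball hR.le
  refine ⟨hcont.mono hsub, ?_, hfix c hc (hsub' hp.2.2)⟩
  intro z hz h1 h2
  constructor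
  · intro h3
    apply h1
    apply hinj (hsub hz) (hsub' hp.1)
    rw [h3, hfix a ha (hsub' hp.1)]
  · intro h3
    apply h2
    apply hinj (hsub hz) (hsub' hp.2.1)
    rw [h3, hfix b hb (hsub' hp.2.1)]

lemma fixesEnds_of_mem (hA3 : GoalA3.{u}) {S : Type u} [TopologicalSpace S]
    {O : Set (OpenPartialHomeomorph S ℂ)} {f : S ≃ₜ S} (hf : f ∈ PHomeo O) : FixesEnds f := by
  unfold PHomeo at hf
  induction hf using Subgroup.closure_induction with
  | mem x hx => exact hx.2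
  | one =>
    intro ε _ K _
    have : (⇑(1 : S ≃ₜ S)) = id := rfl
    rw [this]
    simp
  | mul x y _ _ hx hy => exact (hA3 S x y hx hy).1
  | inv x _ hx => exact (hA3 S x x hx hx).2

lemma notMem_of_abs {e x R : ℝ} (h : R < |x - e|) : (x : ℂ) ∉ closedBall (e : ℂ) R := by
  rw [mem_closedBall, dist_eq_norm, ← Complex.ofReal_sub, Complex.norm_real, Real.norm_eq_abs]
  exact not_le.2 h

lemma mem_of_abs {e x R : ℝ} (h : |x - e| < R) : (x : ℂ) ∈ ball (e : ℂ) R := by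
  rw [mem_ball, dist_eq_norm, ← Complex.ofReal_sub, Complex.norm_real, Real.norm_eq_abs]
  exact h

/-- eventually all small discs are nice -/
lemma act_mul (hB1 : GoalB1.{u}) (hB2 : GoalB2.{u}) (hD1 : GoalD1) (hD2 : GoalD2)
    {S : Type u} [TopologicalSpace S] [T2Space S] {E : Set ℝ} {j : OpenPartialHomeomorph ℂ S}
    (hp : Patch E j) {f g : S ≃ₜ S} (hf : NearE E j f) (hg : NearE E j g) {e : ℝ} (he : e ∈ E)
    {R a b c : ℕ → ℝ} (hR : Tendsto R atTop (𝓝 0)) (h : ∀ i, a i < c i ∧ c i < b i)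
    (ha : ∀ i, a i ∈ E) (hb : ∀ i, b i ∈ E) (hc : ∀ i, c i ∈ E)
    (hpos : ∀ i, Pos (a i) (b i) (c i) e (R i)) (hR0 : ∀ i, 0 < R i) :
    ∀ᶠ i in atTop, act (h i) e (R i) (germ E j (f * g : S ≃ₜ S)) =
      (act (h i) e (R i) (germ E j f)).comp (act (h i) e (R i) (germ E j g)) := by
  obtain ⟨δ₁, hδ₁, hFc, hFi, hFf⟩ := hB1 S E j hp f hf e he
  obtain ⟨δ₂, hδ₂, hGc, hGi, hGf⟩ := hB1 S E j hp g hg e he
  obtain ⟨δ₃, hδ₃, h3⟩ := hB2 S E j hp f g hf hg e he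
  set F := germ E j f with hF
  set G := germ E j g with hG
  set δ := min δ₁ δ₂ with hδ
  have hδ0 : 0 < δ := lt_min hδ₁ hδ₂
  have hs1 : ball (e : ℂ) δ ⊆ ball (e : ℂ) δ₁ := ball_subset_ball (min_le_left _ _)
  have hs2 : ball (e : ℂ) δ ⊆ ball (e : ℂ) δ₂ := ball_subset_ball (min_le_right _ _)
  have hFgood : Good E e δ F := ⟨hδ0, hFc.mono hs1, hFi.mono hs1, fun x hx hx' => hFf x hx (hs1 hx')⟩
  have hGgood : Good E e δ G := ⟨hδ0, hGc.mono hs2, hGi.mono hs2, fun x hx hx' => hGf x hx (hs2 hx')⟩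
  have hGe : G e = e := hGgood.2.2.2 e he (mem_ball_self hδ0)
  have hcat : ContinuousAt G e := hGgood.2.1.continuousAt (ball_mem_nhds _ hδ0)
  have hnear : ∀ᶠ z in 𝓝 (e : ℂ), G z ∈ ball (e : ℂ) δ := by
    apply hcat
    rw [hGe]
    exact ball_mem_nhds _ hδ0
  obtain ⟨η, hη, hη'⟩ := Metric.eventually_nhds_iff_ball.1 hnear
  have hev : ∀ᶠ i in atTop, R i < min δ (min δ₃ η) :=
    hR.eventually_lt_const (lt_min hδ0 (lt_min hδ₃ hη))
  filter_upwards [hev] with i hi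
  have hRδ : R i < δ := lt_of_lt_of_le hi (min_le_left _ _)
  have hRδ₃ : R i < δ₃ := lt_of_lt_of_le hi ((min_le_right _ _).trans (min_le_left _ _))
  have hRη : R i < η := lt_of_lt_of_le hi ((min_le_right _ _).trans (min_le_right _ _))
  have hsub : ball (e : ℂ) (R i) ⊆ ball (e : ℂ) δ := ball_subset_ball hRδ.le
  have hcsub : closedBall (e : ℂ) (R i) ⊆ ball (e : ℂ) δ := closedBall_subset_ball hRδ
  have hmap : ∀ z ∈ closedBall (e : ℂ) (R i), G z ∈ ball (e : ℂ) δ := fun z hz =>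
    hη' z (closedBall_subset_ball hRη hz)
  obtain ⟨pa, pb, pc⟩ := hpos i
  have niceF := nice_of_good hFgood (ha i) (hb i) (hc i) hRδ (hpos i)
  have niceG := nice_of_good hGgood (ha i) (hb i) (hc i) hRδ (hpos i)
  have fixF : ∀ x ∈ E, (x : ℂ) ∈ ball (e : ℂ) (R i) → F x = x := fun x hx hx' =>
    hFgood.2.2.2 x hx (hsub hx')
  have fixG : ∀ x ∈ E, (x : ℂ) ∈ ball (e : ℂ) (R i) → G x = x := fun x hx hx' =>
    hGgood.2.2.2 x hx (hsub hx')
  have niceFG : Nice (a i) (b i) (c i) e (R i) (fun z => F (G z)) := by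
    refine ⟨?_, ?_, ?_⟩
    · exact hFgood.2.1.comp (hGgood.2.1.mono hcsub) hmap
    · intro z hz h1 h2
      obtain ⟨h4, h5⟩ := niceG.avoid z hz h1 h2
      constructor
      · intro h6
        apply h4
        apply hFgood.2.2.1 (hmap z hz) (hsub pa)
        simpa [fixF _ (ha i) pa] using h6
      · intro h6
        apply h5
        apply hFgood.2.2.1 (hmap z hz) (hsub pb)
        simpa [fixF _ (hb i) pb] using h6
    · show F (G (c i)) = c i
      rw [fixG _ (hc i) pc, fixF _ (hc i) pc]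
  obtain ⟨φ, hφ1, hφ2⟩ := hD1 _ _ _ (h i) e (R i) F (hpos i) niceF
  obtain ⟨ψ, hψ1, hψ2⟩ := hD1 _ _ _ (h i) e (R i) G (hpos i) niceG
  obtain ⟨χ, hχ1, hχ2⟩ := hD1 _ _ _ (h i) e (R i) (fun z => F (G z)) (hpos i) niceFG
  rw [act_eq (h i) hφ1 hφ2, act_eq (h i) hψ1 hψ2]
  have h7 : act (h i) e (R i) (germ E j (f * g : S ≃ₜ S)) = act (h i) e (R i) (fun z => F (G z)) :=
    act_congr (h i) (hR0 i).le (fun z hz => h3 z (closedBall_subset_ball hRδ₃ hz))
  rw [h7, act_eq (h i) hχ1 hχ2]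
  ext γ
  exact hD2 _ _ _ (h i) e (R i) δ F G (hpos i) hRδ hFgood.2.1 hFgood.2.2.1 (fixF _ (ha i) pa)
    (fixF _ (hb i) pb) (fixF _ (hc i) pc) hGgood.2.1 hGgood.2.2.1 (fixG _ (ha i) pa)
    (fixG _ (hb i) pb) (fixG _ (hc i) pc) hmap φ ψ χ hφ2 hψ2 hχ2 hφ1 hψ1 hχ1 γ

lemma act_isotopic (hA2 : GoalA2.{u}) (hB3 : GoalB3.{u}) (hD1 : GoalD1) (hD3 : GoalD3)
    {S : Type u} [TopologicalSpace S] [T2Space S] {E : Set ℝ} {j : OpenPartialHomeomorph ℂ S}
    (hp : Patch E j) {f : S ≃ₜ S} (hf : IsotopicToId f) {e : ℝ} (he : e ∈ E)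
    {R a b c : ℕ → ℝ} (hR : Tendsto R atTop (𝓝 0)) (h : ∀ i, a i < c i ∧ c i < b i)
    (ha : ∀ i, a i ∈ E) (hb : ∀ i, b i ∈ E) (hc : ∀ i, c i ∈ E)
    (hpos : ∀ i, Pos (a i) (b i) (c i) e (R i)) (hR0 : ∀ i, 0 < R i) :
    ∀ᶠ i in atTop, act (h i) e (R i) (germ E j f) = MonoidHom.id _ := by
  obtain ⟨H, h1, h2, h3⟩ := hf
  have h4 := hA2 S E j hp H h1 h2
  obtain ⟨δ, hδ, Φ, hc1, hgood, h0, hone⟩ := hB3 S E j hp H h1 h2 h4 e he
  have h5 := hone f h3
  filter_upwards [hR.eventually_lt_const hδ] with i hi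
  obtain ⟨pa, pb, pc⟩ := hpos i
  have hsub : ball (e : ℂ) (R i) ⊆ ball (e : ℂ) δ := ball_subset_ball hi.le
  have nice1 := nice_of_good (hgood 1) (ha i) (hb i) (hc i) hi (hpos i)
  obtain ⟨φ, hφ1, hφ2⟩ := hD1 _ _ _ (h i) e (R i) (Φ 1) (hpos i) nice1
  have h7 : act (h i) e (R i) (germ E j f) = act (h i) e (R i) (Φ 1) :=
    act_congr (h i) (hR0 i).le (fun z hz => (h5 z (closedBall_subset_ball hi hz)).symm)
  rw [h7, act_eq (h i) hφ1 hφ2]
  ext γ
  exact hD3 _ _ _ (h i) e (R i) δ Φ (hpos i) hi hc1 (fun t => (hgood t).2.2.1)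
    (fun t => ⟨(hgood t).2.2.2 _ (ha i) (hsub pa), (hgood t).2.2.2 _ (hb i) (hsub pb),
      (hgood t).2.2.2 _ (hc i) (hsub pc)⟩) h0 φ hφ2 hφ1 γ

/-- The action of the infinite product of twists (`D4` and `D5` in one statement). -/
lemma act_twist (hE2 : GoalE2) (hC4 : GoalC4.{u}) (hD1 : GoalD1)
    {S : Type u} [TopologicalSpace S] [T2Space S] {O : Set (OpenPartialHomeomorph S ℂ)}
    {E : Set ℝ} {j : OpenPartialHomeomorph ℂ S} (hO : IsOrientedAtlas O)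
    (hp : Patch E j) (hjO : j.symm ∈ O) {e : ℝ} (he : e ∈ E)
    {R r r' p : ℕ → ℝ} (hR0 : ∀ i, 0 < R i) (hanti : StrictAnti R) (hR : Tendsto R atTop (𝓝 0))
    (hball : closedBall (e : ℂ) (R 0) ⊆ ball (0 : ℂ) 1) (hr : ∀ i, 0 < r i ∧ r i < r' i)
    (hann : ∀ i, ∀ z : ℂ, r i ≤ ‖z - p i‖ → ‖z - p i‖ ≤ r' i →
      z ∉ inC E ∧ R (i + 1) < ‖z - e‖ ∧ ‖z - e‖ < R i) :
    ∃ (f : S ≃ₜ S) (T : ℂ → ℂ), f ∈ PHomeo O ∧ Continuous T ∧ Function.Injective T ∧
      (∀ i, ∀ z ∈ closedBall (e : ℂ) (R i), T z ∈ closedBall (e : ℂ) (R i)) ∧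
      (∀ i (z : ℂ), R (i + 1) ≤ ‖z - e‖ → ‖z - e‖ ≤ R i → T z = tw (p i) (r i) (r' i) z) ∧
      (∀ x ∈ E, T x = x) ∧ ∀ z ∈ closedBall (e : ℂ) (R 0), germ E j f z = T z := by
  obtain ⟨T, hT1, hT2, hT3, hT4, hT5, hT6⟩ := hE2 (e : ℂ) R r r' (fun i => (p i : ℂ)) hR0 hanti hR hr
    (fun i z h1 h2 => (hann i z h1 h2).2)
  have hcn : ∀ i, Continuous (fun z : ℂ => ‖z - (p i : ℂ)‖) := fun i =>
    (continuous_id.sub continuous_const).norm
  set U : ℕ → Set ℂ := fun i => {z | r i < ‖z - p i‖ ∧ ‖z - p i‖ < r' i} with hU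
  have hUsub : ∀ i, closure (U i) ⊆ {z | r i ≤ ‖z - p i‖ ∧ ‖z - p i‖ ≤ r' i} := by
    intro i
    apply closure_minimal
    · intro z hz
      exact ⟨hz.1.le, hz.2.le⟩
    · exact (isClosed_le continuous_const (hcn i)).inter
        (isClosed_le (hcn i) continuous_const)
  have hRle : ∀ i, R i ≤ R 0 := fun i => hanti.antitone (Nat.zero_le i)
  have hfixE : ∀ z ∈ inC E, T z = z := by
    intro z hz
    by_contra h1
    obtain ⟨i, h2, h3⟩ := hT5 z h1
    exact (hann i z h2.le h3.le).1 hz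
  have hdisj : Pairwise fun i k => Disjoint (U i) (U k) := by
    have key : ∀ i k, i < k → Disjoint (U i) (U k) := by
      intro i k hik
      rw [Set.disjoint_left]
      intro z h1 h2
      have h3 := (hann i z h1.1.le h1.2.le).2.1
      have h4 := (hann k z h2.1.le h2.2.le).2.2
      have h5 : R k ≤ R (i + 1) := hanti.antitone hik
      linarith
    intro i k hik
    rcases lt_or_gt_of_ne hik with h | h
    · exact key i k h
    · exact (key k i h).symm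
  have hρ : ‖(e : ℂ)‖ + R 0 < 1 := by
    have hpt : ∀ σ : ℝ, |σ| = 1 → ((e + σ * R 0 : ℝ) : ℂ) ∈ ball (0 : ℂ) 1 := by
      intro σ hσ
      apply hball
      rw [mem_closedBall, dist_eq_norm, ← Complex.ofReal_sub, Complex.norm_real, Real.norm_eq_abs]
      rw [add_sub_cancel_left, abs_mul, hσ, one_mul, abs_of_pos (hR0 0)]
    rw [Complex.norm_real, Real.norm_eq_abs]
    rcases le_total 0 e with h | h
    · have := hpt 1 (by simp)
      rw [mem_ball_zero_iff, Complex.norm_real, Real.norm_eq_abs, one_mul,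
        abs_of_nonneg (by linarith [hR0 0])] at this
      rwa [abs_of_nonneg h]
    · have := hpt (-1) (by simp)
      rw [mem_ball_zero_iff, Complex.norm_real, Real.norm_eq_abs,
        abs_of_nonpos (by linarith [hR0 0])] at this
      rw [abs_of_nonpos h]
      linarith
  have hTout : ∀ z : ℂ, ‖(e : ℂ)‖ + R 0 ≤ ‖z‖ → T z = z := by
    intro z hz
    apply hT2
    have := norm_sub_norm_le z (e : ℂ)
    linarith
  obtain ⟨f, hf1, hf2, hf3⟩ := hC4 S O E j hO hp hjO T (‖(e : ℂ)‖ + R 0) U hρ hfixE hTout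
    (fun i => (isOpen_lt continuous_const (hcn i)).inter
      (isOpen_lt (hcn i) continuous_const)) hdisj
    (fun i z hz => by
      have h1 := hUsub i hz
      obtain ⟨h2, h3, h4⟩ := hann i z h1.1 h1.2
      refine ⟨hball ?_, h2⟩
      rw [mem_closedBall, dist_eq_norm]
      exact h4.le.trans (hRle i))
    (fun z hz => hT5 z hz)
    (fun z hz => hT6 z (fun h => hz (h ▸ ⟨e, he, rfl⟩)))
  refine ⟨f, T, Subgroup.subset_closure ⟨hf2, hf1⟩, T.continuous, T.injective, hT4, hT1,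
    fun x hx => hfixE _ ⟨x, hx, rfl⟩, ?_⟩
  intro z hz
  unfold germ
  split_ifs with h
  · exact (hfixE z h).symm
  · have hb1 : ball (0 : ℂ) 1 ⊆ ball (0 : ℂ) 2 := ball_subset_ball (by norm_num)
    have hzs : z ∈ j.source := by
      rw [hp.source]
      exact ⟨hb1 (hball hz), h⟩
    rw [hf3 z hzs]
    apply j.left_inv
    rw [hp.source]
    refine ⟨hb1 (hball (hT4 0 z hz)), ?_⟩
    intro h1
    apply h
    have h2 : T (T z) = T z := hfixE _ h1
    have h3 : T z = z := T.injective h2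
    rwa [h3] at h1

theorem main_of_goals (hA1 : GoalA1.{u}) (hA2 : GoalA2.{u}) (hA3 : GoalA3.{u})
    (hB1 : GoalB1.{u}) (hB2 : GoalB2.{u}) (hB3 : GoalB3.{u}) (hC4 : GoalC4.{u})
    (hD1 : GoalD1) (hD2 : GoalD2) (hD3 : GoalD3) (hD4 : GoalD4) (hD5 : GoalD5) (hD6 : GoalD6)
    (hD7 : GoalD7) (hE1 : GoalE1) (hE2 : GoalE2) (hF1 : GoalF1.{u})
    {S : Type u} [TopologicalSpace S] [T2Space S] {O : Set (OpenPartialHomeomorph S ℂ)}
    {E : Set ℝ} {j : OpenPartialHomeomorph ℂ S} (hO : IsOrientedAtlas O)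
    (hp : Patch E j) (hinf : E.Infinite) (hjO : j.symm ∈ O) :
    ∃ (F : Type) (_ : Group F) (_ : Finite F) (Φ : PMap O →* F),
      Function.Surjective Φ ∧ ∃ x y : F, x * y ≠ y * x := by
  obtain ⟨e, he, R, a, b, c, r, r', s, s', hR0, hanti, hR, hball, hall⟩ :=
    hE1 E hp.compact hp.totDisc hinf hp.sub
  obtain ⟨A, instA, finA, hD7'⟩ := hD7
  have h : ∀ i, a i < c i ∧ c i < b i := fun i => (hall i).2.2.2.1
  have ha : ∀ i, a i ∈ E := fun i => (hall i).1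
  have hb : ∀ i, b i ∈ E := fun i => (hall i).2.1
  have hc : ∀ i, c i ∈ E := fun i => (hall i).2.2.1
  have hpos : ∀ i, Pos (a i) (b i) (c i) e (R i) := fun i =>
    ⟨mem_of_abs (hall i).2.2.2.2.1.2, mem_of_abs (hall i).2.2.2.2.2.1.2,
      mem_of_abs (hall i).2.2.2.2.2.2.1.2⟩
  choose x y hxy using fun i => hD6 (a i) (b i) (c i) (h i)
  set θ : ℕ → PHomeo O → Mon A := fun i f => pa A (x i) (y i) (act (h i) e (R i) (germ E j f.1))
    with hθ
  have hnear : ∀ f : PHomeo O, NearE E j f.1 := fun f =>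
    hA1 S E j hp f.1 (fixesEnds_of_mem hA3 f.2)
  have hmul : ∀ f g : PHomeo O, ∀ᶠ i in atTop, θ i (f * g) = θ i f * θ i g := by
    intro f g
    filter_upwards [act_mul hB1 hB2 hD1 hD2 hp (hnear f) (hnear g) he hR h ha hb hc hpos hR0]
      with i hi
    simp only [hθ]
    rw [← pa_comp (hxy i), ← hi]
    rfl
  have htriv : ∀ f : PHomeo O, IsotopicToId f.1 → ∀ᶠ i in atTop, θ i f = 1 := by
    intro f hf
    filter_upwards [act_isotopic hA2 hB3 hD1 hD3 hp hf he hR h ha hb hc hpos hR0] with i hi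
    simp only [hθ]
    rw [hi, pa_id (hxy i)]
  have hone : ∀ᶠ i in atTop, θ i 1 = 1 := by
    apply htriv
    exact ⟨Homeomorph.refl _, fun _ => rfl, fun _ => rfl, fun _ => rfl⟩
  have := finite_mon A
  obtain ⟨Θ, hΘ1, hΘ2⟩ := hF1 (PHomeo O) (Mon A) θ hmul hone
  -- the two twists
  obtain ⟨f, T, hfm, hTc, hTi, hT1, hT2, hT3, hT4⟩ := act_twist (p := a) (r := r) (r' := r')
    hE2 hC4 hD1 hO hp hjO he hR0 hanti hR hball
    (fun i => by
      have := (hall i).2.2.2.2.2.2.2.1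
      exact ⟨by linarith [(h i).1], this.2.1⟩)
    (fun i => (hall i).2.2.2.2.2.2.2.2.2.1)
  obtain ⟨g, T', hgm, hT'c, hT'i, hT'1, hT'2, hT'3, hT'4⟩ := act_twist (p := b) (r := s) (r' := s')
    hE2 hC4 hD1 hO hp hjO he hR0 hanti hR hball
    (fun i => by
      have := (hall i).2.2.2.2.2.2.2.2.1
      exact ⟨by linarith [(h i).2], this.2.1⟩)
    (fun i => (hall i).2.2.2.2.2.2.2.2.2.2)
  have hRle : ∀ i, R i ≤ R 0 := fun i => hanti.antitone (Nat.zero_le i)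
  have hniceT : ∀ (T : ℂ → ℂ), Continuous T → Function.Injective T → (∀ x ∈ E, T x = x) →
      ∀ i, Nice (a i) (b i) (c i) e (R i) T := by
    intro T h1 h2 h3 i
    refine ⟨h1.continuousOn, ?_, h3 _ (hc i)⟩
    intro z _ h4 h5
    constructor
    · intro h6
      apply h4
      apply h2
      rw [h6, h3 _ (ha i)]
    · intro h6
      apply h5
      apply h2
      rw [h6, h3 _ (hb i)]
  have hactT : ∀ i, ∃ d : Pi1 (h i), (d = dA (h i) ∨ d = (dA (h i))⁻¹) ∧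
      ∀ γ : Pi1 (h i), act (h i) e (R i) (germ E j f) γ = d * γ * d⁻¹ := by
    intro i
    obtain ⟨φ, hφ1, hφ2⟩ := hD1 _ _ _ (h i) e (R i) T (hpos i) (hniceT T hTc hTi hT3 i)
    have h7 : act (h i) e (R i) (germ E j f) = act (h i) e (R i) T :=
      act_congr (h i) (hR0 i).le (fun z hz => hT4 z (closedBall_subset_closedBall (hRle i) hz))
    rw [h7, act_eq (h i) hφ1 hφ2]
    obtain ⟨_, _, _, _, hra, hrb, hrc, ⟨hr1, hr2, hr3⟩, _, hann, _⟩ := hall i
    exact hD4 _ _ _ (h i) e (R i) (R (i + 1)) (r i) (r' i) T (hpos i) (hR0 _)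
      (hanti (Nat.lt_succ_self i)) hTc hr1 hr2 hr3 (fun z h1 h2 => (hann z h1 h2).2)
      (notMem_of_abs hra.1) (notMem_of_abs hrb.1) (notMem_of_abs hrc.1) (hT1 (i + 1))
      (fun z hz h1 => hT2 i z h1 (by rwa [mem_closedBall, dist_eq_norm] at hz)) φ hφ2 hφ1
  have hactT' : ∀ i, ∃ d : Pi1 (h i), (d = dB (h i) ∨ d = (dB (h i))⁻¹) ∧
      ∀ γ : Pi1 (h i), act (h i) e (R i) (germ E j g) γ = d * γ * d⁻¹ := by
    intro i
    obtain ⟨φ, hφ1, hφ2⟩ := hD1 _ _ _ (h i) e (R i) T' (hpos i) (hniceT T' hT'c hT'i hT'3 i)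
    have h7 : act (h i) e (R i) (germ E j g) = act (h i) e (R i) T' :=
      act_congr (h i) (hR0 i).le (fun z hz => hT'4 z (closedBall_subset_closedBall (hRle i) hz))
    rw [h7, act_eq (h i) hφ1 hφ2]
    obtain ⟨_, _, _, _, hra, hrb, hrc, _, ⟨hr1, hr2, hr3⟩, _, hann⟩ := hall i
    exact hD5 _ _ _ (h i) e (R i) (R (i + 1)) (s i) (s' i) T' (hpos i) (hR0 _)
      (hanti (Nat.lt_succ_self i)) hT'c hr1 hr2 hr3 (fun z h1 h2 => (hann z h1 h2).2)
      (notMem_of_abs hra.1) (notMem_of_abs hrb.1) (notMem_of_abs hrc.1) (hT'1 (i + 1))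
      (fun z hz h1 => hT'2 i z h1 (by rwa [mem_closedBall, dist_eq_norm] at hz)) φ hφ2 hφ1
  have hne : Θ ⟨f, hfm⟩ * Θ ⟨g, hgm⟩ ≠ Θ ⟨g, hgm⟩ * Θ ⟨f, hfm⟩ := by
    apply hΘ2
    refine Filter.Eventually.of_forall (fun i => ?_)
    obtain ⟨d, hd1, hd2⟩ := hactT i
    obtain ⟨d', hd'1, hd'2⟩ := hactT' i
    obtain ⟨ρ, hρ⟩ := hD7' (a i) (b i) (c i) (h i)
    obtain ⟨γ, hγ⟩ := hρ d d' hd1 hd'1
    apply pa_ne (hxy i) _ _ ρ γ
    rw [hd'2, hd2, hd2, hd'2]
    exact hγ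
  -- factor through the quotient
  have hker : Subgroup.normalClosure {f : PHomeo O | IsotopicToId (f : S ≃ₜ S)} ≤ Θ.ker := by
    apply Subgroup.normalClosure_le_normal
    intro f hf
    exact hΘ1 f (htriv f hf)
  set Ψ : PMap O →* (Mon A)ˣ := QuotientGroup.lift _ Θ hker with hΨ
  refine ⟨Ψ.range, inferInstance, ?_, Ψ.rangeRestrict, Ψ.rangeRestrict_surjective, ?_⟩
  · have : Finite (Mon A)ˣ := inferInstance
    infer_instance
  · refine ⟨Ψ.rangeRestrict (QuotientGroup.mk ⟨f, hfm⟩), Ψ.rangeRestrict (QuotientGroup.mk ⟨g, hgm⟩),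
      ?_⟩
    intro h1
    apply hne
    have h2 := congrArg Subtype.val h1
    exact h2

end Pool.Agent.Helper78.BigMap
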