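import Mathlib

set_option autoImplicit false

/-!
Pure mapping class groups of topological surfaces given by an oriented atlas.
-/

open Topology Filter Set

namespace Pool.Agent.Helper78.BigMap

/-- `F` is orientation preserving at `z`: along every sufficiently small circle around `z` the
vector `F - F z` does not vanish and turns exactly once, positively, around the origin
(`u` is a continuous logarithm of that vector). -/
def PosAt (F : ℂ → ℂ) (z : ℂ) : Prop :=
  ∀ᶠ r : ℝ in 𝓝[>] 0, ∃ u : ℝ → ℂ, Continuous u ∧
    (∀ t : ℝ, F (z + r * Complex.exp (t * Complex.I)) = F z + Complex.exp (u t)) ∧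
    ∀ t : ℝ, u (t + 2 * Real.pi) = u t + 2 * Real.pi * Complex.I

section
variable {S : Type*} [TopologicalSpace S]

/-- `O` is an oriented atlas of a topological surface: planar charts covering `S` whose
transition maps are orientation preserving at every point. -/
def IsOrientedAtlas (O : Set (OpenPartialHomeomorph S ℂ)) : Prop :=
  (∀ x : S, ∃ φ ∈ O, x ∈ φ.source) ∧
    ∀ φ ∈ O, ∀ ψ ∈ O, ∀ x ∈ φ.source ∩ ψ.source, PosAt (fun z => ψ (φ.symm z)) (φ x)

/-- The homeomorphism `f` preserves the orientation given by `O`. -/
def PreservesOrientation (O : Set (OpenPartialHomeomorph S ℂ)) (f : S ≃ₜ S) : Prop :=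
  ∀ φ ∈ O, ∀ ψ ∈ O, ∀ x ∈ φ.source, f x ∈ ψ.source →
    PosAt (fun z => ψ (f (φ.symm z))) (φ x)

/-- An end of `S`: a choice of a connected component of the complement of every compact
set, decreasing in the compact set (only the values at compact sets matter). -/
def IsEnd (ε : Set S → Set S) : Prop :=
  (∀ K : Set S, IsCompact K → ∃ x ∈ Kᶜ, ε K = connectedComponentIn Kᶜ x) ∧
    ∀ K L : Set S, IsCompact K → IsCompact L → K ⊆ L → ε L ⊆ ε K

/-- `f` acts trivially on the space of ends: the image of the end `ε` is the end
`K ↦ f (ε (f ⁻¹ K))`. -/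
def FixesEnds (f : S ≃ₜ S) : Prop :=
  ∀ ε : Set S → Set S, IsEnd ε → ∀ K : Set S, IsCompact K → f '' ε (f ⁻¹' K) = ε K

/-- `f` is isotopic to the identity: there is a level preserving homeomorphism of
`[0,1] × S` which is the identity at time `0` and `f` at time `1`. -/
def IsotopicToId (f : S ≃ₜ S) : Prop :=
  ∃ H : (unitInterval × S) ≃ₜ (unitInterval × S),
    (∀ p, (H p).1 = p.1) ∧ (∀ x, (H (0, x)).2 = x) ∧ ∀ x, (H (1, x)).2 = f x

/-- The group generated by the orientation preserving homeomorphisms acting trivially on the
space of ends (they form a group, so the closure adds nothing). -/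
def PHomeo (O : Set (OpenPartialHomeomorph S ℂ)) : Subgroup (S ≃ₜ S) :=
  Subgroup.closure {f | PreservesOrientation O f ∧ FixesEnds f}

/-- The pure mapping class group of the surface `S` with oriented atlas `O`. -/
abbrev PMap (O : Set (OpenPartialHomeomorph S ℂ)) : Type _ :=
  PHomeo O ⧸ Subgroup.normalClosure {f : PHomeo O | IsotopicToId (f : S ≃ₜ S)}

end

/-- The real subset `E` inside the complex plane. -/
def inC (E : Set ℝ) : Set ℂ := (fun x : ℝ => (x : ℂ)) '' E

end Pool.Agent.Helper78.BigMap
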